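import Mathlib

set_option autoImplicit false

namespace Pool.Agent.Results.MP_746574_co.TreeIff

variable {V : Type}

/-- Every vertex is in `S` or has a neighbour in `S`. -/
def Dom (G : SimpleGraph V) (S : Set V) : Prop := ∀ v, v ∈ S ∨ ∃ u ∈ S, G.Adj v u

/-- Minimal dominating set. -/
def MinDom (G : SimpleGraph V) (M : Set V) : Prop := Dom G M ∧ ∀ v ∈ M, ¬ Dom G (M \ {v})

/-- `B` arises from `A` by adding one vertex `v` and removing only neighbours of `v`. -/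
def Move (G : SimpleGraph V) (A B : Set V) : Prop :=
  ∃ v, B \ A = {v} ∧ A \ B ⊆ G.neighborSet v

/-- The reconfiguration graph on minimal dominating sets. -/
def Reconf (G : SimpleGraph V) : SimpleGraph {M : Set V // MinDom G M} where
  Adj A B := A ≠ B ∧ (Move G A.1 B.1 ∨ Move G B.1 A.1)
  symm := ⟨fun _ _ h => ⟨h.1.symm, h.2.symm⟩⟩
  loopless := ⟨fun _ h => h.1 rfl⟩

section
variable {G : SimpleGraph V}

def Ind (G : SimpleGraph V) (S : Set V) : Prop := ∀ a ∈ S, ∀ b ∈ S, ¬ G.Adj a b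

def Fam (G : SimpleGraph V) (M : Set V) : Prop :=
  MinDom G M ∧ (Ind G M ∨ ∃ u ∈ M, ∃ w ∈ M, G.Adj u w ∧ Ind G (M \ {u}) ∧ Ind G (M \ {w}))

lemma ind_min {S : Set V} (h1 : Ind G S) (h2 : Dom G S) : MinDom G S := by
  refine ⟨h2, fun v hv hd => ?_⟩
  rcases hd v with h | ⟨u, hu, h⟩
  · exact h.2 rfl
  · exact h1 v hv u hu.1 h

lemma exists_MIS [Finite V] (P : Set V) (a : V) (ha : a ∈ P) :
    ∃ X ⊆ P, a ∈ X ∧ Ind G X ∧ ∀ z ∈ P, z ∈ X ∨ ∃ x ∈ X, G.Adj z x := by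
  obtain ⟨X, hX, hm⟩ := Finite.exists_le_maximal (p := fun X : Set V => X ⊆ P ∧ Ind G X)
    (a := {a}) ⟨by simpa using ha, by intro x hx y hy; simp at hx hy; simp [hx, hy]⟩
  refine ⟨X, hm.1.1, hX rfl, hm.1.2, fun z hz => ?_⟩
  by_contra hc
  push Not at hc
  have : insert z X ≤ X := by
    refine hm.2 ⟨Set.insert_subset hz hm.1.1, ?_⟩ (Set.subset_insert _ _)
    rintro x (rfl | hx) y (rfl | hy)
    · simp
    · exact hc.2 y hy
    · exact fun h => hc.2 x hx h.symm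
    · exact hm.1.2 x hx y hy
  exact hc.1 (this (Set.mem_insert _ _))

lemma repl [Finite V] {M : Set V} (hM : Dom G M) {w a : V} (hw : w ∈ M)
    (hind : Ind G (M \ {w})) (ha : a ∉ M ∧ G.Adj a w ∧ ∀ i ∈ M, G.Adj a i → i = w) :
    ∃ D, Ind G D ∧ Dom G D ∧ a ∈ D ∧ w ∉ D ∧ M \ {w} ⊆ D ∧ Move G D M ∧
      ∀ z ∈ D, z ∉ M → G.Adj z w ∧ ∀ i ∈ M, G.Adj z i → i = w := by
  obtain ⟨X, hXP, haX, hXi, hXd⟩ := exists_MIS (G := G)
    {z | z ∉ M ∧ G.Adj z w ∧ ∀ i ∈ M, G.Adj z i → i = w} a ha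
  have hwD : w ∉ (M \ {w}) ∪ X := by
    rintro (h | h)
    · exact h.2 rfl
    · exact (hXP h).1 hw
  refine ⟨(M \ {w}) ∪ X, ?_, ?_, Or.inr haX, hwD, Set.subset_union_left, ⟨w, ?_, ?_⟩, ?_⟩
  · rintro x (hx | hx) y (hy | hy) h
    · exact hind x hx y hy h
    · exact hx.2 ((hXP hy).2.2 x hx.1 h.symm)
    · exact hy.2 ((hXP hx).2.2 y hy.1 h)
    · exact hXi x hx y hy h
  · intro z
    by_cases hz : z ∈ M
    · by_cases hzw : z = w
      · exact Or.inr ⟨a, Or.inr haX, hzw ▸ ha.2.1.symm⟩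
      · exact Or.inl (Or.inl ⟨hz, hzw⟩)
    · by_cases h : ∀ i ∈ M, G.Adj z i → i = w
      · obtain ⟨i, hi, hzi⟩ := (hM z).resolve_left hz
        rcases hXd z ⟨hz, h i hi hzi ▸ hzi, h⟩ with h' | ⟨x, hx, h'⟩
        · exact Or.inl (Or.inr h')
        · exact Or.inr ⟨x, Or.inr hx, h'⟩
      · push Not at h
        obtain ⟨i, hi, hzi, hne⟩ := h
        exact Or.inr ⟨i, Or.inl ⟨hi, hne⟩, hzi⟩
  · ext x
    constructor
    · rintro ⟨h1, h2⟩
      by_contra h3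
      exact h2 (Or.inl ⟨h1, h3⟩)
    · rintro rfl
      exact ⟨hw, hwD⟩
  · rintro x ⟨h1 | h1, h2⟩
    · exact absurd h1.1 h2
    · exact (hXP h1).2.1.symm
  · rintro z (h1 | h1) h2
    · exact absurd h1.1 h2
    · exact (hXP h1).2

lemma edge_nb [Finite V] {M : Set V} (hM : MinDom G M) {u w : V} (hu : u ∈ M) (hw : w ∈ M)
    (huw : G.Adj u w) (hind : Ind G (M \ {w})) :
    ∃ D, Fam G D ∧ Move G D M ∧ u ∈ D ∧ w ∉ D := by
  have h := hM.2 w hw
  simp only [Dom, not_forall, not_or, not_exists, not_and] at h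
  obtain ⟨z, h1, h2⟩ := h
  have hzw : z ≠ w := by
    rintro rfl
    exact h2 u ⟨hu, huw.ne⟩ huw.symm
  have hz : z ∉ M := fun h => h1 ⟨h, hzw⟩
  have h3 : ∀ i ∈ M, G.Adj z i → i = w := by
    intro i hi hzi
    by_contra hne
    exact h2 i ⟨hi, hne⟩ hzi
  obtain ⟨i, hi, hzi⟩ := (hM.1 z).resolve_left hz
  obtain ⟨D, d1, d2, -, d4, d5, d6, -⟩ := repl hM.1 hw hind ⟨hz, h3 i hi hzi ▸ hzi, h3⟩
  exact ⟨D, ⟨ind_min d1 d2, Or.inl d1⟩, d6, d5 ⟨hu, huw.ne⟩, d4⟩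

lemma key [Finite V] {I : Set V} (hi : Ind G I) (hd : Dom G I) {y w : V} (hy : y ∉ I) (hw : w ∈ I)
    (hyw : G.Adj y w)
    (good : ∀ z, z ∉ I → (∀ i ∈ I, G.Adj z i → G.Adj y i) → G.Adj z w) :
    ∃ M, Fam G M ∧ (Move G I M ∨ Move G M I) ∧ y ∈ M ∧
      ∀ z ∈ M, z ∉ I → z = y ∨ (G.Adj z w ∧ ¬ G.Adj z y ∧ ∀ i ∈ I, G.Adj z i → i = w) := by
  by_cases ca : ∀ i ∈ I, G.Adj y i → i = w
  · obtain ⟨D, d1, d2, d3, -, -, d6, d7⟩ :=
      repl hd hw (fun a ha b hb => hi a ha.1 b hb.1) ⟨hy, hyw, ca⟩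
    exact ⟨D, ⟨ind_min d1 d2, Or.inl d1⟩, Or.inr d6, d3, fun z hz hzI =>
      Or.inr ⟨(d7 z hz hzI).1, d1 z hz y d3, (d7 z hz hzI).2⟩⟩
  push Not at ca
  obtain ⟨w', hw', hyw', hne⟩ := ca
  by_cases cb : ∃ z, z ∉ I ∧ z ≠ y ∧ ¬ G.Adj z y ∧ ∀ i ∈ I, G.Adj z i → G.Adj y i
  · obtain ⟨z0, z1, z2, z3, z4⟩ := cb
    refine ⟨{x | x = y ∨ (x ∈ I ∧ (¬ G.Adj y x ∨ x = w))}, ⟨⟨?_, ?_⟩, Or.inr
      ⟨y, Or.inl rfl, w, Or.inr ⟨hw, Or.inr rfl⟩, hyw, ?_, ?_⟩⟩, Or.inl ⟨y, ?_, ?_⟩,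
      Or.inl rfl, ?_⟩
    · intro z
      by_cases h1 : G.Adj z y
      · exact Or.inr ⟨y, Or.inl rfl, h1⟩
      by_cases h2 : z ∈ I
      · exact Or.inl (Or.inr ⟨h2, Or.inl fun h => h1 h.symm⟩)
      by_cases h3 : ∀ i ∈ I, G.Adj z i → G.Adj y i
      · exact Or.inr ⟨w, Or.inr ⟨hw, Or.inr rfl⟩, good z h2 h3⟩
      · push Not at h3
        obtain ⟨i, i1, i2, i3⟩ := h3
        exact Or.inr ⟨i, Or.inr ⟨i1, Or.inl i3⟩, i2⟩
    · rintro v (rfl | ⟨hv, hv'⟩) hD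
      · rcases hD w' with ⟨h | h, h'⟩ | ⟨i, ⟨h | h, h'⟩, h''⟩
        · exact h' h
        · rcases h.2 with h | h
          · exact h hyw'
          · exact hne h
        · exact h' h
        · exact hi w' hw' i h.1 h''
      · by_cases hvw : v = w
        · subst hvw
          rcases hD z0 with ⟨h | h, -⟩ | ⟨i, ⟨h | h, h'⟩, h''⟩
          · exact z2 h
          · exact z1 h.1
          · exact z3 (h ▸ h'')
          · rcases h.2 with h3 | h3
            · exact h3 (z4 i h.1 h'')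
            · exact h' h3
        · rcases hD v with ⟨-, h'⟩ | ⟨i, ⟨h | h, -⟩, h''⟩
          · exact h' rfl
          · exact (hv'.resolve_right hvw) (h ▸ h'').symm
          · exact hi v hv i h.1 h''
    · rintro a ⟨ha | ha, ha'⟩ b ⟨hb | hb, hb'⟩
      · exact absurd ha ha'
      · exact absurd ha ha'
      · exact absurd hb hb'
      · exact hi a ha.1 b hb.1
    · rintro a ⟨rfl | ha, ha'⟩ b ⟨rfl | hb, hb'⟩
      · simp
      · exact hb.2.resolve_right hb'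
      · exact fun h => ha.2.resolve_right ha' h.symm
      · exact hi a ha.1 b hb.1
    · ext x
      constructor
      · rintro ⟨h | h, h'⟩
        · exact h
        · exact absurd h.1 h'
      · rintro rfl
        exact ⟨Or.inl rfl, hy⟩
    · rintro x ⟨h1, h2⟩
      by_contra h3
      exact h2 (Or.inr ⟨h1, Or.inl h3⟩)
    · rintro z (h | h) h'
      · exact Or.inl h
      · exact absurd h.1 h'
  · have i1 : Ind G {x | x = y ∨ (x ∈ I ∧ ¬ G.Adj y x)} := by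
      rintro a (rfl | ha) b (rfl | hb)
      · simp
      · exact hb.2
      · exact fun h => ha.2 h.symm
      · exact hi a ha.1 b hb.1
    have i2 : Dom G {x | x = y ∨ (x ∈ I ∧ ¬ G.Adj y x)} := by
      intro z
      by_cases h0 : z = y
      · exact Or.inl (Or.inl h0)
      by_cases h1 : G.Adj z y
      · exact Or.inr ⟨y, Or.inl rfl, h1⟩
      by_cases h2 : z ∈ I
      · exact Or.inl (Or.inr ⟨h2, fun h => h1 h.symm⟩)
      by_cases h3 : ∀ i ∈ I, G.Adj z i → G.Adj y i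
      · exact absurd ⟨z, h2, h0, h1, h3⟩ cb
      · push Not at h3
        obtain ⟨i, i1, i2, i3⟩ := h3
        exact Or.inr ⟨i, Or.inr ⟨i1, i3⟩, i2⟩
    refine ⟨_, ⟨ind_min i1 i2, Or.inl i1⟩, Or.inl ⟨y, ?_, ?_⟩, Or.inl rfl, ?_⟩
    · ext x
      constructor
      · rintro ⟨h | h, h'⟩
        · exact h
        · exact absurd h.1 h'
      · rintro rfl
        exact ⟨Or.inl rfl, hy⟩
    · rintro x ⟨h1, h2⟩
      by_contra h3
      exact h2 (Or.inr ⟨h1, h3⟩)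
    · rintro z (h | h) h'
      · exact Or.inl h
      · exact absurd h.1 h'

lemma minW [Finite V] (I : Set V) {y : V} (hy : y ∉ I) :
    ∃ u, u ∉ I ∧ (∀ i ∈ I, G.Adj u i → G.Adj y i) ∧
      ∀ z, z ∉ I → (∀ i ∈ I, G.Adj z i → G.Adj u i) → ∀ i ∈ I, G.Adj u i → G.Adj z i := by
  obtain ⟨W, hW, ⟨u, hu, rfl⟩, hm⟩ := Finite.exists_le_minimal
    (p := fun W : Set V => ∃ u, u ∉ I ∧ W = {i | i ∈ I ∧ G.Adj u i})
    (a := {i | i ∈ I ∧ G.Adj y i}) ⟨y, hy, rfl⟩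
  refine ⟨u, hu, fun i hi h => (hW ⟨hi, h⟩).2, fun z hz h i hi h' => ?_⟩
  exact (hm ⟨z, hz, rfl⟩ (fun j hj => ⟨hj.1, h j hj.1 hj.2⟩) ⟨hi, h'⟩).2

lemma two_nb [Finite V] [Nonempty V] (hs : ¬ ∃ c, ∀ a b, G.Adj a b → a = c ∨ b = c)
    {M : Set V} (hM : Fam G M) :
    ∃ A B, A ≠ B ∧ A ≠ M ∧ B ≠ M ∧ Fam G A ∧ Fam G B ∧ (Move G M A ∨ Move G A M) ∧
      (Move G M B ∨ Move G B M) := by
  obtain ⟨hm, hi | ⟨u, hu, w, hw, huw, h1, h2⟩⟩ := hM
  · have hd := hm.1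
    by_cases cA : ∃ w ∈ M, ∀ z, z ∉ M → G.Adj z w
    · obtain ⟨w, hw, hall⟩ := cA
      by_contra hc
      have K := fun y (hy : y ∉ M) => key hi hd hy hw (hall y hy) (fun z hz _ => hall z hz)
      choose N n1 n2 n3 n4 using K
      have heq : ∀ y hy z hz, N y hy = N z hz := by
        intro y hy z hz
        by_contra hne
        exact hc ⟨_, _, hne, fun e => hy (e ▸ n3 y hy), fun e => hz (e ▸ n3 z hz), n1 y hy,
          n1 z hz, n2 y hy, n2 z hz⟩
      have hp : ∀ y z, y ∉ M → z ∉ M → z ≠ y →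
          ¬ G.Adj z y ∧ ∀ i ∈ M, G.Adj z i → i = w := by
        intro y z hy hz hne
        exact ((n4 y hy z (heq y hy z hz ▸ n3 z hz) hz).resolve_left hne).2
      apply hs
      by_cases c2 : ∃ y z, y ∉ M ∧ z ∉ M ∧ y ≠ z
      · obtain ⟨y, z, hy, hz, hyz⟩ := c2
        have hq : ∀ a, a ∉ M → ∀ i ∈ M, G.Adj a i → i = w := by
          intro a ha
          by_cases e : a = y
          · exact (hp z a hz ha (e ▸ hyz)).2
          · exact (hp y a hy ha e).2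
        refine ⟨w, fun a b hab => ?_⟩
        by_cases ha : a ∈ M <;> by_cases hb : b ∈ M
        · exact absurd hab (hi a ha b hb)
        · exact Or.inl (hq b hb a ha hab.symm)
        · exact Or.inr (hq a ha b hb hab)
        · exact absurd hab (hp b a hb ha hab.ne).1
      · push Not at c2
        by_cases c3 : ∃ y, y ∉ M
        · obtain ⟨y, hy⟩ := c3
          refine ⟨y, fun a b hab => ?_⟩
          by_cases ha : a ∈ M <;> by_cases hb : b ∈ M
          · exact absurd hab (hi a ha b hb)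
          · exact Or.inr (c2 b y hb hy)
          · exact Or.inl (c2 a y ha hy)
          · exact Or.inl (c2 a y ha hy)
        · push Not at c3
          exact ⟨w, fun a b hab => absurd hab (hi a (c3 a) b (c3 b))⟩
    · push Not at cA
      obtain ⟨w0, hw0⟩ : ∃ w0, w0 ∈ M := by
        obtain ⟨v⟩ := ‹Nonempty V›
        rcases hd v with h | ⟨u, hu, -⟩
        · exact ⟨v, h⟩
        · exact ⟨u, hu⟩
      obtain ⟨y0, hy0, -⟩ := cA w0 hw0
      obtain ⟨u, hu, -, hmin⟩ := minW (G := G) M hy0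
      obtain ⟨w, hw, huw⟩ := (hd u).resolve_left hu
      obtain ⟨y, hy, hyw⟩ := cA w hw
      obtain ⟨u', hu', hle, hmin'⟩ := minW (G := G) M hy
      obtain ⟨w', hw', huw'⟩ := (hd u').resolve_left hu'
      obtain ⟨A, a1, a2, a3, a4⟩ := key hi hd hu hw huw (fun z hz h => hmin z hz h w hw huw)
      obtain ⟨B, b1, b2, b3, -⟩ := key hi hd hu' hw' huw' (fun z hz h => hmin' z hz h w' hw' huw')
      refine ⟨A, B, ?_, fun e => hu (e ▸ a3), fun e => hu' (e ▸ b3), a1, b1, a2, b2⟩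
      rintro rfl
      rcases a4 u' b3 hu' with h | h
      · exact hyw (hle w hw (h ▸ huw))
      · exact hyw (hle w hw h.1)
  · obtain ⟨A, a1, a2, a3, a4⟩ := edge_nb hm hu hw huw h2
    obtain ⟨B, b1, b2, b3, b4⟩ := edge_nb hm hw hu huw.symm h1
    exact ⟨A, B, fun e => b4 (e ▸ a3), fun e => a4 (e ▸ hw), fun e => b4 (e ▸ hu), a1, b1,
      Or.inr a2, Or.inr b2⟩

lemma exists_ind [Finite V] [Nonempty V] : ∃ I, Ind G I ∧ Dom G I := by
  obtain ⟨a⟩ := ‹Nonempty V›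
  obtain ⟨I, -, -, h1, h2⟩ := exists_MIS (G := G) Set.univ a (Set.mem_univ _)
  exact ⟨I, h1, fun z => h2 z (Set.mem_univ _)⟩

lemma star_of_acyclic [Finite V] [Nonempty V] (h : (Reconf G).IsAcyclic) :
    ∃ c, ∀ a b, G.Adj a b → a = c ∨ b = c := by
  by_contra hs
  have hH := h.induce {A | Fam G A.1}
  obtain ⟨I, h1, h2⟩ := exists_ind (G := G)
  have : Nonempty {A : {M : Set V // MinDom G M} | Fam G A.1} :=
    ⟨⟨⟨I, ind_min h1 h2⟩, ind_min h1 h2, Or.inl h1⟩⟩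
  obtain ⟨u, v, p, hp, hmax⟩ := SimpleGraph.Walk.exists_isPath_forall_isPath_length_le_length
    ((Reconf G).induce {A | Fam G A.1})
  obtain ⟨A, B, hAB, hA, hB, fA, fB, mA, mB⟩ := two_nb hs u.2
  have step : ∀ (A : Set V) (fA : Fam G A), A ≠ u.1.1 → (Move G u.1.1 A ∨ Move G A u.1.1) →
      (⟨⟨A, fA.1⟩, fA⟩ : {A : {M : Set V // MinDom G M} | Fam G A.1}) = p.snd := by
    intro A fA hA mA
    have hadj : ((Reconf G).induce {A : {M : Set V // MinDom G M} | Fam G A.1}).Adj u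
        ⟨⟨A, fA.1⟩, fA⟩ :=
      ⟨fun e => hA (congrArg Subtype.val e).symm, mA⟩
    refine hH.eq_snd_of_adj_start hp hadj ?_
    by_contra hn
    have := hmax _ _ (p.cons hadj.symm) (hp.cons hn)
    simp at this
  have := (step A fA hA mA).trans (step B fB hB mB).symm
  exact hAB (congrArg (fun x => x.1.1) this)

lemma tree_of_star [Finite V] [Nonempty V] {c : V} (hc : ∀ a b, G.Adj a b → a = c ∨ b = c) :
    (Reconf G).IsTree := by
  classical
  have f1 : ∀ M, MinDom G M → ∀ x, x ≠ c → (¬ G.Adj x c ∨ c ∉ M) → x ∈ M := by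
    intro M hM x hx h
    rcases hM.1 x with h1 | ⟨u, hu, h1⟩
    · exact h1
    · obtain rfl : u = c := (hc x u h1).resolve_left hx
      rcases h with h | h
      · exact absurd h1 h
      · exact absurd hu h
  have f2 : ∀ M, MinDom G M → ∀ x, G.Adj x c → c ∈ M → x ∉ M := by
    intro M hM x hx h hxM
    refine hM.2 x hxM fun z => ?_
    by_cases hz : z = x
    · exact Or.inr ⟨c, ⟨h, hx.ne.symm⟩, hz ▸ hx⟩
    by_cases hzM : z ∈ M
    · exact Or.inl ⟨hzM, hz⟩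
    obtain ⟨u, hu, h1⟩ := (hM.1 z).resolve_left hzM
    refine Or.inr ⟨u, ⟨hu, ?_⟩, h1⟩
    rintro rfl
    rcases hc z u h1 with e | e
    · exact hzM (e ▸ h)
    · exact hx.ne e
  have f3 : ∀ A B, MinDom G A → MinDom G B → (c ∈ A ↔ c ∈ B) → A ⊆ B := by
    intro A B hA hB e x hx
    by_cases h1 : x = c
    · exact h1 ▸ e.1 (h1 ▸ hx)
    refine f1 B hB x h1 ?_
    by_cases h2 : G.Adj x c
    · exact Or.inr fun h => f2 A hA x h2 (e.2 h) hx
    · exact Or.inl h2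
  have f4 : ∀ A B : {M : Set V // MinDom G M}, (c ∈ A.1 ↔ c ∈ B.1) → A = B := fun A B e =>
    Subtype.ext (Set.Subset.antisymm (f3 _ _ A.2 B.2 e) (f3 _ _ B.2 A.2 e.symm))
  have f5 : ∀ A B, MinDom G A → MinDom G B → c ∈ A → c ∉ B → Move G B A := by
    intro A B hA hB h1 h2
    refine ⟨c, ?_, ?_⟩
    · ext x
      constructor
      · rintro ⟨h3, h4⟩
        by_contra h5
        exact h4 (f1 B hB x h5 (Or.inr h2))
      · rintro rfl
        exact ⟨h1, h2⟩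
    · rintro x ⟨h3, h4⟩
      by_contra h5
      exact h4 (f1 A hA x (fun e => h2 (e ▸ h3)) (Or.inl fun h => h5 h.symm))
  obtain ⟨I, h1, h2⟩ := exists_ind (G := G)
  have : Nonempty {M : Set V // MinDom G M} := ⟨⟨I, ind_min h1 h2⟩⟩
  refine ⟨⟨fun A B => ?_⟩, ?_⟩
  · by_cases e : A = B
    · rw [e]
    refine SimpleGraph.Adj.reachable ⟨e, ?_⟩
    by_cases hA : c ∈ A.1 <;> by_cases hB : c ∈ B.1
    · exact absurd (f4 A B (by simp [hA, hB])) e
    · exact Or.inr (f5 _ _ A.2 B.2 hA hB)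
    · exact Or.inl (f5 _ _ B.2 A.2 hB hA)
    · exact absurd (f4 A B (by simp [hA, hB])) e
  · have inj : Function.Injective fun A : {M : Set V // MinDom G M} => decide (c ∈ A.1) :=
      fun A B e => f4 A B (by simpa using e)
    exact SimpleGraph.IsAcyclic.comap (G' := (⊤ : SimpleGraph Bool))
      ⟨fun A => decide (c ∈ A.1), fun h => inj.ne h.1⟩ inj
      (SimpleGraph.IsAcyclic.of_card_le_two (by simp))

lemma iso_of_star [Finite V] {c : V} (hc : ∀ a b, G.Adj a b → a = c ∨ b = c) :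
    ∃ n m : ℕ, Nonempty
      (G ≃g (⊥ : SimpleGraph (Fin n)).sum (completeBipartiteGraph (Fin 1) (Fin m))) := by
  obtain ⟨n, ⟨e1⟩⟩ := Finite.exists_equiv_fin {x // x ≠ c ∧ ¬ G.Adj c x}
  obtain ⟨m, ⟨e2⟩⟩ := Finite.exists_equiv_fin {x // G.Adj c x}
  let f : Fin n ⊕ (Fin 1 ⊕ Fin m) → V :=
    Sum.elim (fun i => (e1.symm i).1) (Sum.elim (fun _ => c) fun j => (e2.symm j).1)
  have p1 : ∀ i, (e1.symm i).1 ≠ c ∧ ¬ G.Adj c (e1.symm i).1 := fun i => (e1.symm i).2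
  have p2 : ∀ j, G.Adj c (e2.symm j).1 := fun j => (e2.symm j).2
  have q1 : ∀ i x, ¬ G.Adj (e1.symm i).1 x := by
    intro i x h
    rcases hc _ _ h with e | e
    · exact (p1 i).1 e
    · exact (p1 i).2 (e ▸ h).symm
  have hf : Function.Bijective f := by
    constructor
    · rintro (i | i | i) (j | j | j) h <;> simp only [f, Sum.elim_inl, Sum.elim_inr] at h
      · rw [e1.symm.injective (Subtype.ext h)]
      · exact absurd h (p1 i).1
      · exact absurd (h ▸ p2 j) (p1 i).2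
      · exact absurd h.symm (p1 j).1
      · rw [Subsingleton.elim i j]
      · exact absurd h (p2 j).ne
      · exact absurd (h ▸ p2 i) (p1 j).2
      · exact absurd h.symm (p2 i).ne
      · rw [e2.symm.injective (Subtype.ext h)]
    · intro x
      by_cases h1 : x = c
      · exact ⟨.inr (.inl 0), h1.symm⟩
      by_cases h2 : G.Adj c x
      · exact ⟨.inr (.inr (e2 ⟨x, h2⟩)), by simp [f]⟩
      · exact ⟨.inl (e1 ⟨x, h1, h2⟩), by simp [f]⟩
  refine ⟨n, m, ⟨SimpleGraph.Iso.symm ⟨Equiv.ofBijective f hf, ?_⟩⟩⟩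
  rintro (i | i | i) (j | j | j) <;>
    simp only [Equiv.ofBijective_apply, f, Sum.elim_inl, Sum.elim_inr]
  · simp [q1]
  · simp [q1]
  · simp [q1]
  · simpa using (p1 j).2
  · simp
  · simpa using p2 j
  · simpa using fun h => q1 j _ (G.adj_symm h)
  · simpa using (p2 i).symm
  · have : ¬ G.Adj (e2.symm i).1 (e2.symm j).1 := by
      intro h
      rcases hc _ _ h with e | e
      · exact (p2 i).ne e.symm
      · exact (p2 j).ne e.symm
    simpa using this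

lemma star_of_iso {n m : ℕ}
    (e : G ≃g (⊥ : SimpleGraph (Fin n)).sum (completeBipartiteGraph (Fin 1) (Fin m))) :
    ∃ c, ∀ a b, G.Adj a b → a = c ∨ b = c := by
  refine ⟨e.symm (.inr (.inl 0)), fun a b h => ?_⟩
  have h' := e.map_adj_iff.2 h
  have ea : a = e.symm (e a) := by simp
  have eb : b = e.symm (e b) := by simp
  rw [ea, eb]
  generalize e a = x at h' ⊢
  generalize e b = y at h' ⊢
  rcases x with x | x | x <;> rcases y with y | y | y <;> simp at h'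
  · rw [Subsingleton.elim x 0]; exact Or.inl rfl
  · rw [Subsingleton.elim y 0]; exact Or.inr rfl

end

theorem result :
    ∀ (V : Type) [Finite V] [Nonempty V] (G : SimpleGraph V),
      (Reconf G).IsTree ↔ ∃ n m : ℕ, Nonempty
        (G ≃g (⊥ : SimpleGraph (Fin n)).sum (completeBipartiteGraph (Fin 1) (Fin m))) := by
  intro V _ _ G
  constructor
  · intro h
    obtain ⟨c, hc⟩ := star_of_acyclic h.isAcyclic
    exact iso_of_star hc
  · rintro ⟨n, m, ⟨e⟩⟩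
    obtain ⟨c, hc⟩ := star_of_iso e
    exact tree_of_star hc

end Pool.Agent.Results.MP_746574_co.TreeIff
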